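import Pool.Agent.N360.MF.Fin

set_option autoImplicit false

/-!
Neighborly `2k`-spheres: the value `m_{k+1} = binom(n-k-3, k) - 1` is never attained.
-/

namespace Pool.Agent.Results.MP_233bd3_co.NoSecondLargest

/-- `Δ` is an abstract simplicial complex with vertex set `Fin n` (every point of `Fin n` is a
vertex of `Δ`). -/
def IsComplex {n : ℕ} (Δ : Finset (Finset (Fin n))) : Prop :=
  ∅ ∈ Δ ∧ (∀ σ ∈ Δ, ∀ τ : Finset (Fin n), τ ⊆ σ → τ ∈ Δ) ∧ ∀ v : Fin n, {v} ∈ Δ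

/-- The geometric realization of `Δ`: points of the standard simplex whose support lies in a
face of `Δ`. -/
def realization {n : ℕ} (Δ : Finset (Finset (Fin n))) : Set (Fin n → ℝ) :=
  {x | (∀ i, 0 ≤ x i) ∧ ∑ i, x i = 1 ∧ ∃ σ ∈ Δ, ∀ i, i ∉ σ → x i = 0}

/-- `Δ` is a simplicial `m`-sphere with vertex set `Fin n`: a complex whose geometric realization
is homeomorphic to the `m`-dimensional unit sphere. -/
def IsSimplicialSphere (m : ℕ) {n : ℕ} (Δ : Finset (Finset (Fin n))) : Prop :=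
  IsComplex Δ ∧
    Nonempty (realization Δ ≃ₜ Metric.sphere (0 : EuclideanSpace ℝ (Fin (m + 1))) 1)

/-- `Δ` is `k`-neighborly: every set of `k` vertices is a face. -/
def IsNeighborly (k : ℕ) {n : ℕ} (Δ : Finset (Finset (Fin n))) : Prop :=
  ∀ σ : Finset (Fin n), σ.card = k → σ ∈ Δ

/-- `Δ` is a neighborly `2k`-sphere (with the `n` vertices `Fin n`). -/
def IsNeighborlySphere (k : ℕ) {n : ℕ} (Δ : Finset (Finset (Fin n))) : Prop :=
  IsSimplicialSphere (2 * k) Δ ∧ IsNeighborly k Δ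

/-- `σ` is a missing face of `Δ`: not a face, but every proper subset is a face. -/
def IsMissingFace {n : ℕ} (Δ : Finset (Finset (Fin n))) (σ : Finset (Fin n)) : Prop :=
  σ ∉ Δ ∧ ∀ τ : Finset (Fin n), τ ⊂ σ → τ ∈ Δ

/-- `m_i(Δ)`, the number of missing `i`-faces of `Δ`, that is, of missing faces with `i + 1`
elements. -/
noncomputable def numMissing {n : ℕ} (Δ : Finset (Finset (Fin n))) (i : ℕ) : ℕ :=
  Nat.card {σ : Finset (Fin n) // IsMissingFace Δ σ ∧ σ.card = i + 1}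

/-- The assertion of the question: for every `k ≥ 2` there is `N(k)` such that for all
`n ≥ N(k)` every integer `0 ≤ m ≤ binom(n-k-3, k)` is the number `m_{k+1}` of some neighborly
`2k`-sphere with `n` vertices. -/
def AllValuesAttained : Prop :=
  ∀ k : ℕ, 2 ≤ k → ∃ N : ℕ, ∀ n : ℕ, N ≤ n → ∀ m : ℕ, m ≤ (n - k - 3).choose k →
    ∃ Δ : Finset (Finset (Fin n)), IsNeighborlySphere k Δ ∧ numMissing Δ (k + 1) = m

theorem key {k n : ℕ} (hk : 1 ≤ k) (Δ : Finset (Finset (Fin n)))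
    (h : IsNeighborlySphere k Δ) :
    numMissing Δ (k + 1) + 1 ≠ (n - k - 3).choose k := by
  classical
  by_cases hn : 2 * k + 1 < n
  · obtain ⟨⟨⟨h0, hd, hv⟩, ⟨Φ⟩⟩, hnb⟩ := h
    have hL : Pool.Agent.W555.KS.IsCx Δ := ⟨h0, hd⟩
    have hnb' : ∀ σ : Finset (Fin n), σ.card ≤ k → σ ∈ Δ := by
      intro σ hσ
      obtain ⟨τ, hστ, -, hτ⟩ := Finset.exists_subsuperset_card_eq (Finset.subset_univ σ) hσ
        (by rw [Finset.card_univ, Fintype.card_fin]; omega)
      exact hd τ (hnb τ hτ) σ hστ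
    have hg := Pool.Agent.N360.MF.good_of hk hn hL Φ hnb'
    have h1 := Pool.Agent.N360.MF.alg_main hn hk hg
    have h2 : numMissing Δ (k + 1) = (Pool.Agent.N360.MF.miss Δ (k + 2)).card := by
      unfold numMissing
      rw [Nat.card_eq_fintype_card]
      apply Fintype.card_of_subtype
      intro σ
      unfold Pool.Agent.N360.MF.miss IsMissingFace
      rw [Finset.mem_filter]
      constructor
      · rintro ⟨-, h3, h4, h5⟩
        exact ⟨⟨h4, h5⟩, h3⟩
      · rintro ⟨⟨h4, h5⟩, h3⟩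
        exact ⟨Finset.mem_univ _, h3, h4, h5⟩
    rw [h2]
    exact h1
  · rw [Nat.choose_eq_zero_of_lt (by omega)]
    exact Nat.succ_ne_zero _

/-- For every `k ≥ 1` and every neighborly `2k`-sphere with `n` vertices, the number `m_{k+1}` of
missing `(k+1)`-faces is different from `binom(n-k-3, k) - 1`; for `n ≥ 2k+3` that number is an
integer in the range `0 ≤ m ≤ binom(n-k-3, k)`. Hence the assertion of the question is false,
and its negated form holds for every `k ≥ 2` and every `n ≥ 2k+3`. -/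
theorem result :
    (∀ k : ℕ, 1 ≤ k → ∀ (n : ℕ) (Δ : Finset (Finset (Fin n))), IsNeighborlySphere k Δ →
      numMissing Δ (k + 1) + 1 ≠ (n - k - 3).choose k) ∧
    (∀ k : ℕ, 1 ≤ k → ∀ n : ℕ, 2 * k + 3 ≤ n →
      ∃ m : ℕ, m + 1 = (n - k - 3).choose k ∧
        ∀ Δ : Finset (Finset (Fin n)), IsNeighborlySphere k Δ → numMissing Δ (k + 1) ≠ m) ∧
    ¬ AllValuesAttained := by
  have h1 : ∀ k : ℕ, 1 ≤ k → ∀ (n : ℕ) (Δ : Finset (Finset (Fin n))), IsNeighborlySphere k Δ →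
      numMissing Δ (k + 1) + 1 ≠ (n - k - 3).choose k := fun k hk n Δ h => key hk Δ h
  have h2 : ∀ k : ℕ, 1 ≤ k → ∀ n : ℕ, 2 * k + 3 ≤ n →
      ∃ m : ℕ, m + 1 = (n - k - 3).choose k ∧
        ∀ Δ : Finset (Finset (Fin n)), IsNeighborlySphere k Δ → numMissing Δ (k + 1) ≠ m := by
    intro k hk n hn
    have hpos : 0 < (n - k - 3).choose k := Nat.choose_pos (by omega)
    refine ⟨(n - k - 3).choose k - 1, by omega, ?_⟩
    intro Δ hΔ hm
    exact h1 k hk n Δ hΔ (by omega)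
  refine ⟨h1, h2, ?_⟩
  intro h
  obtain ⟨N, hN⟩ := h 2 le_rfl
  obtain ⟨m, hm, hno⟩ := h2 2 (by norm_num) (max N 7) (le_max_right _ _)
  obtain ⟨Δ, hΔ, hΔm⟩ := hN (max N 7) (le_max_left _ _) m (by omega)
  exact hno Δ hΔ hΔm

end Pool.Agent.Results.MP_233bd3_co.NoSecondLargest
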